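import Mathlib

/-! Mean values of polynomials in the cosine. -/

set_option autoImplicit false

namespace Pool.Agent.W353.L1

open Complex Filter Topology ComplexConjugate MeasureTheory intervalIntegral

/-- the mean value of a function of the cosine -/
noncomputable def Mf (φ : ℝ → ℝ) : ℝ :=
  (2 * Real.pi)⁻¹ * ∫ θ in (-(Real.pi / 2))..(3 * Real.pi / 2), φ (Real.cos θ)

theorem integral_exp_int (m : ℤ) :
    ∫ θ in (-(Real.pi / 2))..(3 * Real.pi / 2), cexp (m * I * θ) =
      if m = 0 then ((2 * Real.pi : ℝ) : ℂ) else 0 := by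
  split_ifs with h
  · subst h
    simp only [Int.cast_zero, zero_mul, Complex.exp_zero]
    rw [intervalIntegral.integral_const]
    simp only [Complex.real_smul, mul_one]
    congr 1
    ring
  · have hc : (m * I : ℂ) ≠ 0 := mul_ne_zero (by exact_mod_cast h) I_ne_zero
    rw [integral_exp_mul_complex hc]
    have h1 : (m * I * ((3 * Real.pi / 2 : ℝ) : ℂ)) =
        m * I * ((-(Real.pi / 2) : ℝ) : ℂ) + m * (2 * Real.pi * I) := by
      push_cast
      ring
    rw [h1, Complex.exp_add, Complex.exp_int_mul_two_pi_mul_I, mul_one, sub_self, zero_div]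

/-- the coefficients of the powers of the cosine -/
noncomputable def cc (n k : ℕ) : ℝ := (n.choose k : ℝ) / 2 ^ n

theorem cos_pow_expand (w : ℂ) (hw : ‖w‖ = 1) (n : ℕ) :
    (w.re ^ n : ℝ) = (∑ k ∈ Finset.range (n + 1), (cc n k : ℂ) * w ^ (2 * (k : ℤ) - n)).re := by
  have hw0 : w ≠ 0 := by
    intro h
    rw [h, norm_zero] at hw
    exact zero_ne_one hw
  have hinv : conj w = w⁻¹ := by
    rw [Complex.inv_def, Complex.normSq_eq_norm_sq, hw]
    simp
  have h1 : ((w.re : ℝ) : ℂ) = (w + w⁻¹) / 2 := by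
    rw [← hinv, Complex.add_conj]
    push_cast
    ring
  have h2 : ((w.re ^ n : ℝ) : ℂ) =
      ∑ k ∈ Finset.range (n + 1), (cc n k : ℂ) * w ^ (2 * (k : ℤ) - n) := by
    push_cast
    rw [h1, div_pow, add_pow, Finset.sum_div]
    refine Finset.sum_congr rfl fun k hk => ?_
    have hkn : k ≤ n := by
      have := Finset.mem_range.1 hk
      omega
    have h3 : w ^ k * w⁻¹ ^ (n - k) = w ^ (2 * (k : ℤ) - n) := by
      rw [inv_pow, ← zpow_natCast, ← zpow_natCast, ← zpow_neg, ← zpow_add₀ hw0]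
      congr 1
      push_cast [hkn]
      ring
    rw [h3]
    unfold cc
    push_cast
    ring
  rw [← h2, Complex.ofReal_re]

theorem Mf_pow (n : ℕ) : Mf (fun x => x ^ n) =
    ∑ k ∈ Finset.range (n + 1), if 2 * (k : ℤ) - n = 0 then cc n k else 0 := by
  unfold Mf
  have h1 : ∀ θ : ℝ, (Real.cos θ) ^ n =
      (∑ k ∈ Finset.range (n + 1), (cc n k : ℂ) * cexp ((2 * (k : ℤ) - n : ℤ) * I * θ)).re := by
    intro θ
    have h2 : (cexp (θ * I)).re = Real.cos θ := Complex.exp_ofReal_mul_I_re θ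
    rw [← h2, cos_pow_expand _ (Complex.norm_exp_ofReal_mul_I θ)]
    congr 1
    refine Finset.sum_congr rfl fun k _ => ?_
    rw [← Complex.exp_int_mul]
    congr 2
    ring
  have hint : ∀ k : ℕ, IntervalIntegrable (fun θ : ℝ =>
      (cc n k : ℂ) * cexp ((2 * (k : ℤ) - n : ℤ) * I * θ)) volume
      (-(Real.pi / 2)) (3 * Real.pi / 2) := by
    intro k
    apply Continuous.intervalIntegrable
    fun_prop
  have h3 : ((∫ θ in (-(Real.pi / 2))..(3 * Real.pi / 2), (Real.cos θ) ^ n : ℝ) : ℝ) =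
      (∫ θ in (-(Real.pi / 2))..(3 * Real.pi / 2),
        ∑ k ∈ Finset.range (n + 1), (cc n k : ℂ) * cexp ((2 * (k : ℤ) - n : ℤ) * I * θ)).re := by
    have h4 := intervalIntegral.intervalIntegral_re (𝕜 := ℂ) (μ := volume)
      (f := fun θ : ℝ => ∑ k ∈ Finset.range (n + 1),
        (cc n k : ℂ) * cexp ((2 * (k : ℤ) - n : ℤ) * I * θ))
      (a := -(Real.pi / 2)) (b := 3 * Real.pi / 2)
      (by
        apply Continuous.intervalIntegrable
        fun_prop)
    refine Eq.trans ?_ h4
    refine intervalIntegral.integral_congr fun θ _ => ?_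
    exact h1 θ
  rw [h3, intervalIntegral.integral_finsetSum fun k _ => hint k, Complex.re_sum, Finset.mul_sum]
  refine Finset.sum_congr rfl fun k _ => ?_
  rw [intervalIntegral.integral_const_mul, integral_exp_int]
  split_ifs with h
  · rw [← Complex.ofReal_mul, Complex.ofReal_re]
    have := Real.pi_pos
    field_simp
  · simp

theorem Mf_abs : Mf (fun x => |x|) = 2 / Real.pi := by
  unfold Mf
  have hc : Continuous fun θ : ℝ => |Real.cos θ| := Real.continuous_cos.abs
  have h1 : ∫ θ in (-(Real.pi / 2))..(3 * Real.pi / 2), |Real.cos θ| =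
      (∫ θ in (-(Real.pi / 2))..(Real.pi / 2), |Real.cos θ|) +
        ∫ θ in (Real.pi / 2)..(3 * Real.pi / 2), |Real.cos θ| :=
    (intervalIntegral.integral_add_adjacent_intervals (hc.intervalIntegrable _ _)
      (hc.intervalIntegrable _ _)).symm
  have hpi := Real.pi_pos
  have h2 : ∫ θ in (-(Real.pi / 2))..(Real.pi / 2), |Real.cos θ| = 2 := by
    have h3 : ∫ θ in (-(Real.pi / 2))..(Real.pi / 2), |Real.cos θ| =
        ∫ θ in (-(Real.pi / 2))..(Real.pi / 2), Real.cos θ := by
      refine intervalIntegral.integral_congr fun θ hθ => ?_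
      rw [Set.uIcc_of_le (by linarith)] at hθ
      exact abs_of_nonneg (Real.cos_nonneg_of_mem_Icc hθ)
    rw [h3, integral_cos, Real.sin_neg, Real.sin_pi_div_two]
    norm_num
  have h4 : ∫ θ in (Real.pi / 2)..(3 * Real.pi / 2), |Real.cos θ| = 2 := by
    have h3 : ∫ θ in (Real.pi / 2)..(3 * Real.pi / 2), |Real.cos θ| =
        ∫ θ in (Real.pi / 2)..(3 * Real.pi / 2), -Real.cos θ := by
      refine intervalIntegral.integral_congr fun θ hθ => ?_
      rw [Set.uIcc_of_le (by linarith)] at hθ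
      exact abs_of_nonpos (Real.cos_nonpos_of_pi_div_two_le_of_le hθ.1 (by linarith [hθ.2]))
    rw [h3, intervalIntegral.integral_neg, integral_cos, Real.sin_pi_div_two]
    have h5 : Real.sin (3 * Real.pi / 2) = -1 := by
      have : 3 * Real.pi / 2 = Real.pi / 2 + Real.pi := by ring
      rw [this, Real.sin_add_pi, Real.sin_pi_div_two]
    rw [h5]
    norm_num
  rw [h1, h2, h4]
  field_simp
  norm_num

theorem Mf_add {φ ψ : ℝ → ℝ} (hφ : Continuous φ) (hψ : Continuous ψ) :
    Mf (fun x => φ x + ψ x) = Mf φ + Mf ψ := by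
  unfold Mf
  have h1 : IntervalIntegrable (fun θ => φ (Real.cos θ)) volume (-(Real.pi / 2))
      (3 * Real.pi / 2) := (hφ.comp Real.continuous_cos).intervalIntegrable _ _
  have h2 : IntervalIntegrable (fun θ => ψ (Real.cos θ)) volume (-(Real.pi / 2))
      (3 * Real.pi / 2) := (hψ.comp Real.continuous_cos).intervalIntegrable _ _
  have h3 := intervalIntegral.integral_add h1 h2
  simp only
  rw [h3, mul_add]

theorem Mf_const_mul (c : ℝ) (φ : ℝ → ℝ) : Mf (fun x => c * φ x) = c * Mf φ := by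
  unfold Mf
  rw [intervalIntegral.integral_const_mul]
  ring

theorem Mf_close {φ ψ : ℝ → ℝ} (hφ : Continuous φ) (hψ : Continuous ψ) {η : ℝ}
    (h : ∀ x ∈ Set.Icc (-1 : ℝ) 1, |φ x - ψ x| ≤ η) : |Mf φ - Mf ψ| ≤ η := by
  unfold Mf
  have h1 : IntervalIntegrable (fun θ => φ (Real.cos θ)) volume (-(Real.pi / 2))
      (3 * Real.pi / 2) := (hφ.comp Real.continuous_cos).intervalIntegrable _ _
  have h2 : IntervalIntegrable (fun θ => ψ (Real.cos θ)) volume (-(Real.pi / 2))
      (3 * Real.pi / 2) := (hψ.comp Real.continuous_cos).intervalIntegrable _ _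
  have h3 := intervalIntegral.integral_sub h1 h2
  rw [← mul_sub, ← h3, abs_mul]
  have hpi := Real.pi_pos
  have h1 := intervalIntegral.norm_integral_le_of_norm_le_const
    (a := -(Real.pi / 2)) (b := 3 * Real.pi / 2) (C := η)
    (f := fun θ => φ (Real.cos θ) - ψ (Real.cos θ)) (fun θ _ => by
      rw [Real.norm_eq_abs]
      exact h _ ⟨Real.neg_one_le_cos θ, Real.cos_le_one θ⟩)
  rw [Real.norm_eq_abs] at h1
  rw [abs_of_pos (by positivity)]
  have h2 : |3 * Real.pi / 2 - -(Real.pi / 2)| = 2 * Real.pi := by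
    rw [abs_of_pos (by linarith)]
    ring
  rw [h2] at h1
  calc (2 * Real.pi)⁻¹ * |∫ θ in (-(Real.pi / 2))..(3 * Real.pi / 2),
        (φ (Real.cos θ) - ψ (Real.cos θ))| ≤ (2 * Real.pi)⁻¹ * (η * (2 * Real.pi)) :=
        mul_le_mul_of_nonneg_left h1 (by positivity)
    _ = η := by field_simp

end Pool.Agent.W353.L1
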