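import Pool.Agent.H21.L.R_seed8.W353.L1.Core0

/-! Two characters with different heights: the strict inequality. -/

set_option autoImplicit false

namespace Pool.Agent.W353.L1

open Complex Filter Topology ComplexConjugate Pool.Agent.H341R2 NumberField IsDedekindDomain
  Pool.Agent.W401.Cheb Pool.Agent.W540.BE Polynomial

section
variable {F : Type} [Field F] [NumberField F]

/-- `φ` is bounded and has mean value `m` over the primes -/
def Has (φ : HeightOneSpectrum (𝓞 F) → ℝ) (m : ℝ) : Prop :=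
  (∃ B : ℝ, ∀ v, |φ v| ≤ B) ∧
    Tendsto (fun ε : ℝ => (EP (nm F) ε φ) / lam ε) (𝓝[>] 0) (𝓝 m)

theorem Has.add {φ ψ : HeightOneSpectrum (𝓞 F) → ℝ} {m m' : ℝ} (h : Has φ m) (h' : Has ψ m') :
    Has (fun v => φ v + ψ v) (m + m') := by
  obtain ⟨⟨B, hB⟩, h⟩ := h
  obtain ⟨⟨B', hB'⟩, h'⟩ := h'
  refine ⟨⟨B + B', fun v => (abs_add_le _ _).trans (add_le_add (hB v) (hB' v))⟩, ?_⟩
  refine (h.add h').congr' ?_
  filter_upwards [self_mem_nhdsWithin] with ε hε
  rw [← add_div, ← EP_add normSys hε hB hB']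

theorem Has.const_mul {φ : HeightOneSpectrum (𝓞 F) → ℝ} {m : ℝ} (h : Has φ m) (c : ℝ) :
    Has (fun v => c * φ v) (c * m) := by
  obtain ⟨⟨B, hB⟩, h⟩ := h
  refine ⟨⟨|c| * B, fun v => ?_⟩, ?_⟩
  · rw [abs_mul]
    exact mul_le_mul_of_nonneg_left (hB v) (abs_nonneg _)
  · refine (h.const_mul c).congr fun ε => ?_
    rw [EP_const_mul, mul_div_assoc]

theorem has_one : Has (F := F) (fun _ => 1) 1 :=
  ⟨⟨1, fun _ => by simp⟩, EP_one F⟩

theorem Has.congr {φ ψ : HeightOneSpectrum (𝓞 F) → ℝ} {m m' : ℝ} (h : Has φ m)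
    (he : ∀ v, φ v = ψ v) (hm : m = m') : Has ψ m' := by
  have : φ = ψ := funext he
  rw [← this, ← hm]
  exact h

/-- hermitian class functions of a finite quotient -/
structure CF (U : Subgroup (GK F)) [U.Normal] where
  f : GK F ⧸ U → ℂ
  cls : ∀ a x, f (x * a * x⁻¹) = f a
  herm : ∀ q, f q⁻¹ = conj (f q)

variable {U : Subgroup (GK F)} [U.Normal]

/-- product -/
noncomputable def CF.mul (A B : CF U) : CF U where
  f q := A.f q * B.f q
  cls a x := by rw [A.cls, B.cls]
  herm q := by rw [A.herm, B.herm, map_mul]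

/-- complex conjugate -/
noncomputable def CF.star (A : CF U) : CF U where
  f q := conj (A.f q)
  cls a x := by rw [A.cls]
  herm q := by rw [A.herm]

/-- the real part with a height -/
noncomputable def CF.R (A : CF U) (τ : ℝ) (σ : HeightOneSpectrum (𝓞 F) → GK F)
    (v : HeightOneSpectrum (𝓞 F)) : ℝ := (A.f (QuotientGroup.mk (σ v)) * zz τ v).re

/-- the mean value of the square of the absolute value -/
noncomputable def CF.sq (A : CF U) : ℝ := avR U fun q => ‖A.f q‖ ^ 2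

theorem zz_add (s t : ℝ) (v : HeightOneSpectrum (𝓞 F)) : zz (s + t) v = zz s v * zz t v := by
  unfold zz
  have hvc : ((nm F v : ℕ) : ℂ) ≠ 0 := by
    have := nm_pos v
    exact_mod_cast this.ne'
  rw [← Complex.cpow_add _ _ hvc]
  congr 1
  push_cast
  ring

theorem conj_zz (t : ℝ) (v : HeightOneSpectrum (𝓞 F)) : conj (zz t v) = zz (-t) v := by
  unfold zz
  rw [conj_cpow_I (nm_pos v)]
  congr 1
  push_cast
  ring

theorem CF.R_mul (A B : CF U) (s t : ℝ) (σ : HeightOneSpectrum (𝓞 F) → GK F)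
    (v : HeightOneSpectrum (𝓞 F)) : A.R s σ v * B.R t σ v =
      1 / 2 * (A.mul B).R (s + t) σ v + 1 / 2 * (A.mul B.star).R (s - t) σ v := by
  have h1 : ∀ x y : ℂ, x.re * y.re = 1 / 2 * (x * y).re + 1 / 2 * (x * conj y).re := by
    intro x y
    simp only [Complex.mul_re, Complex.conj_re, Complex.conj_im]
    ring
  unfold CF.R
  rw [h1]
  congr 2
  · congr 1
    rw [zz_add]
    unfold CF.mul
    ring
  · congr 1
    rw [sub_eq_add_neg, zz_add, map_mul, conj_zz]
    unfold CF.mul CF.star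
    ring

variable (hU : IsOpen (U : Set (GK F))) [Finite (GK F ⧸ U)]
  (σ : HeightOneSpectrum (𝓞 F) → GK F) (hσ : ∀ v, IsFrob v (σ v))

include hU hσ in
theorem CF.has (A : CF U) (t : ℝ) [Decidable (t = 0)] :
    Has (A.R t σ) (if t = 0 then (avC U A.f).re else 0) := by
  classical
  let _ : Fintype (GK F ⧸ U) := Fintype.ofFinite _
  refine ⟨⟨∑ q, ‖A.f q‖, fun v => ?_⟩, ?_⟩
  · unfold CF.R
    refine (Complex.abs_re_le_norm _).trans ?_
    rw [norm_mul, norm_zz, mul_one]
    exact Finset.single_le_sum (f := fun q => ‖A.f q‖) (fun q _ => norm_nonneg _)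
      (Finset.mem_univ _)
  · have h := cheb_edge U hU A.f A.cls _ (avC_real U A.f A.herm) σ hσ t
    have e : (if t = 0 then (avC U A.f).re else 0) =
        @ite ℝ (t = 0) (Real.decidableEq t 0) (avC U A.f).re 0 := by
      congr
    rw [e]
    exact h

include hU hσ in
theorem CF.has_ne (A : CF U) {t : ℝ} (ht : t ≠ 0) : Has (A.R t σ) 0 := by
  classical
  have := A.has hU σ hσ t
  rwa [if_neg ht] at this

include hU hσ in
theorem CF.has_sq (A : CF U) : Has ((A.mul A.star).R 0 σ) A.sq := by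
  classical
  have h := (A.mul A.star).has hU σ hσ 0
  rw [if_pos rfl] at h
  have e : (avC U (A.mul A.star).f).re = A.sq := by
    have h1 : (A.mul A.star).f = fun q => ((‖A.f q‖ ^ 2 : ℝ) : ℂ) := by
      funext q
      change A.f q * conj (A.f q) = _
      rw [Complex.mul_conj, Complex.normSq_eq_norm_sq]
    rw [h1, avC_ofReal, Complex.ofReal_re]
    rfl
  rwa [e] at h

include hU hσ in
/-- product of two terms with heights `s ≠ ± t` -/
theorem CF.has_mul_ne (A B : CF U) {s t : ℝ} (h1 : s + t ≠ 0) (h2 : s - t ≠ 0) :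
    Has (fun v => A.R s σ v * B.R t σ v) 0 := by
  refine (((A.mul B).has_ne hU σ hσ h1).const_mul (1 / 2)).add
    (((A.mul B.star).has_ne hU σ hσ h2).const_mul (1 / 2)) |>.congr (fun v => ?_) (by ring)
  exact (A.R_mul B s t σ v).symm

include hU hσ in
/-- the square of a term with a non-zero height -/
theorem CF.has_mul_self (A : CF U) {s : ℝ} (h1 : s ≠ 0) :
    Has (fun v => A.R s σ v * A.R s σ v) (1 / 2 * A.sq) := by
  have h2 : s + s ≠ 0 := by
    intro h
    apply h1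
    linarith
  refine (((A.mul A).has_ne hU σ hσ h2).const_mul (1 / 2)).add
    ((A.has_sq hU σ hσ).const_mul (1 / 2)) |>.congr (fun v => ?_) (by ring)
  rw [A.R_mul A s s σ v, sub_self]

include hU hσ in
/-- **The strict inequality.** -/
theorem strict (A B : CF U) {s t : ℝ} (hs : 0 < s) (ht : 0 < t) (hst : s ≠ t)
    (hA : A.sq = 1) (hB : B.sq = 1) (hAB : 0 < (A.mul B).sq) {c d : ℝ} (hc : c ^ 2 = 1)
    (hd : d ^ 2 = 1) :
    ∃ a : ℝ, a < 1 ∧ ∀ η : ℝ, 0 < η → ∀ᶠ ε : ℝ in 𝓝[>] 0,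
      (EP (nm F) ε fun v => |c * A.R s σ v + d * B.R t σ v|) / lam ε ≤ a + η := by
  classical
  obtain ⟨⟨SA, hSA⟩, -⟩ := A.has hU σ hσ s
  obtain ⟨⟨SB, hSB⟩, -⟩ := B.has hU σ hσ t
  have hc1 : |c| = 1 := by
    have : |c| ^ 2 = 1 := by rw [sq_abs, hc]
    nlinarith [abs_nonneg c]
  have hd1 : |d| = 1 := by
    have : |d| ^ 2 = 1 := by rw [sq_abs, hd]
    nlinarith [abs_nonneg d]
  set W : HeightOneSpectrum (𝓞 F) → ℝ := fun v => c * A.R s σ v + d * B.R t σ v with hW
  have hWb : ∀ v, |W v| ≤ |SA| + |SB| := by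
    intro v
    rw [hW]
    refine (abs_add_le _ _).trans (add_le_add ?_ ?_)
    · rw [abs_mul, hc1, one_mul]
      exact (hSA v).trans (le_abs_self _)
    · rw [abs_mul, hd1, one_mul]
      exact (hSB v).trans (le_abs_self _)
  set S : ℝ := |SA| + |SB| + 1 with hS
  have hS0 : 0 < S := by positivity
  set Z : HeightOneSpectrum (𝓞 F) → ℝ := (A.mul B).R (s + t) σ with hZ
  set N : ℝ := (A.mul B).sq with hN
  -- the mean values
  have m2 : Has (fun v => W v * W v) 1 := by
    have h1 := (A.has_mul_self hU σ hσ hs.ne').const_mul (c ^ 2)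
    have h2 := (B.has_mul_self hU σ hσ ht.ne').const_mul (d ^ 2)
    have h3 := (A.has_mul_ne hU σ hσ B (s := s) (t := t) (by linarith)
      (sub_ne_zero.2 hst)).const_mul (2 * c * d)
    refine ((h1.add h2).add h3).congr (fun v => ?_) ?_
    · rw [hW]
      ring
    · rw [hA, hB, hc, hd]
      norm_num
  have mZ : Has Z 0 := (A.mul B).has_ne hU σ hσ (by linarith)
  have mZZ : Has (fun v => Z v * Z v) (1 / 2 * N) := (A.mul B).has_mul_self hU σ hσ (by linarith)
  have m2Z : Has (fun v => W v * W v * Z v) (c * d * (1 / 2 * N)) := by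
    -- expansion of the square
    have e1 : ∀ v, W v * W v * Z v =
        c ^ 2 * (1 / 2) * ((A.mul A).R (s + s) σ v * Z v) +
        c ^ 2 * (1 / 2) * ((A.mul A.star).R (s - s) σ v * Z v) +
        (d ^ 2 * (1 / 2) * ((B.mul B).R (t + t) σ v * Z v) +
        d ^ 2 * (1 / 2) * ((B.mul B.star).R (t - t) σ v * Z v)) +
        (c * d * (Z v * Z v) + c * d * ((A.mul B.star).R (s - t) σ v * Z v)) := by
      intro v
      have h1 := A.R_mul A s s σ v
      have h2 := B.R_mul B t t σ v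
      have h3 := A.R_mul B s t σ v
      have e2 : W v * W v = c ^ 2 * (A.R s σ v * A.R s σ v) + d ^ 2 * (B.R t σ v * B.R t σ v) +
          2 * c * d * (A.R s σ v * B.R t σ v) := by
        rw [hW]
        ring
      rw [e2, h1, h2, h3, hZ]
      ring
    have g1 := ((A.mul A).has_mul_ne hU σ hσ (A.mul B) (s := s + s) (t := s + t) (by linarith)
      (by intro h; apply hst; linarith)).const_mul (c ^ 2 * (1 / 2))
    have g2 := ((A.mul A.star).has_mul_ne hU σ hσ (A.mul B) (s := s - s) (t := s + t)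
      (by linarith) (by intro h; linarith)).const_mul (c ^ 2 * (1 / 2))
    have g3 := ((B.mul B).has_mul_ne hU σ hσ (A.mul B) (s := t + t) (t := s + t) (by linarith)
      (by intro h; apply hst; linarith)).const_mul (d ^ 2 * (1 / 2))
    have g4 := ((B.mul B.star).has_mul_ne hU σ hσ (A.mul B) (s := t - t) (t := s + t)
      (by linarith) (by intro h; linarith)).const_mul (d ^ 2 * (1 / 2))
    have g5 := mZZ.const_mul (c * d)
    have g6 := ((A.mul B.star).has_mul_ne hU σ hσ (A.mul B) (s := s - t) (t := s + t)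
      (by intro h; linarith) (by intro h; linarith)).const_mul (c * d)
    refine (((g1.add g2).add (g3.add g4)).add (g5.add g6)).congr (fun v => ?_) ?_
    · rw [e1]
    · ring
  -- the majorant
  set t0 : ℝ := c * d * (1 / 2) with ht0
  have hmaj : ∀ v, |W v| ≤ 1 / 2 * (W v * W v) + 1 / 2 * 1 +
      (-(t0 / S ^ 2)) * (W v * W v * Z v) + (t0 / S ^ 2) * Z v +
      (t0 ^ 2 / (2 * S ^ 2)) * (Z v * Z v) := by
    intro v
    have h1 : |W v| + 1 ≤ S := by
      have := hWb v
      rw [hS]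
      linarith
    have h2 : 0 ≤ |W v| := abs_nonneg _
    have h3 : (|W v| - 1) ^ 2 * (|W v| + 1) ^ 2 = (W v * W v - 1) ^ 2 := by
      have : |W v| * |W v| = W v * W v := abs_mul_abs_self _
      calc (|W v| - 1) ^ 2 * (|W v| + 1) ^ 2 = (|W v| * |W v| - 1) ^ 2 := by ring
        _ = _ := by rw [this]
    have h4 : (W v * W v - 1) ^ 2 ≤ (|W v| - 1) ^ 2 * S ^ 2 := by
      rw [← h3]
      refine mul_le_mul_of_nonneg_left ?_ (sq_nonneg _)
      exact pow_le_pow_left₀ (by linarith) h1 2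
    have h5 : 2 * t0 * (W v * W v - 1) * Z v - t0 ^ 2 * (Z v * Z v) ≤ (W v * W v - 1) ^ 2 := by
      nlinarith [sq_nonneg ((W v * W v - 1) - t0 * Z v)]
    have h6 : |W v| * |W v| = W v * W v := abs_mul_abs_self _
    have h7 : (2 * t0 * (W v * W v - 1) * Z v - t0 ^ 2 * (Z v * Z v)) / S ^ 2 ≤
        (|W v| - 1) ^ 2 := by
      rw [div_le_iff₀ (by positivity)]
      exact h5.trans h4
    have h8 : (|W v| - 1) ^ 2 = W v * W v - 2 * |W v| + 1 := by
      rw [← h6]
      ring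
    have h9 : 1 / 2 * (W v * W v) + 1 / 2 * 1 +
      (-(t0 / S ^ 2)) * (W v * W v * Z v) + (t0 / S ^ 2) * Z v +
      (t0 ^ 2 / (2 * S ^ 2)) * (Z v * Z v) = 1 / 2 * (W v * W v) + 1 / 2 -
        1 / 2 * ((2 * t0 * (W v * W v - 1) * Z v - t0 ^ 2 * (Z v * Z v)) / S ^ 2) := by
      field_simp
      ring
    rw [h9]
    rw [h8] at h7
    linarith
  have hmean := ((((m2.const_mul (1 / 2)).add (has_one.const_mul (1 / 2))).add
    (m2Z.const_mul (-(t0 / S ^ 2)))).add (mZ.const_mul (t0 / S ^ 2))).add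
    (mZZ.const_mul (t0 ^ 2 / (2 * S ^ 2)))
  have hval : 1 / 2 * 1 + 1 / 2 * 1 + -(t0 / S ^ 2) * (c * d * (1 / 2 * N)) + t0 / S ^ 2 * 0 +
      t0 ^ 2 / (2 * S ^ 2) * (1 / 2 * N) = 1 - 3 * N / (16 * S ^ 2) := by
    have h1 : t0 * (c * d) = 1 / 2 := by
      rw [ht0]
      calc c * d * (1 / 2) * (c * d) = (c ^ 2) * (d ^ 2) * (1 / 2) := by ring
        _ = 1 / 2 := by rw [hc, hd]; norm_num
    have h2 : t0 ^ 2 = 1 / 4 := by
      rw [ht0]
      calc (c * d * (1 / 2)) ^ 2 = (c ^ 2) * (d ^ 2) * (1 / 4) := by ring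
        _ = 1 / 4 := by rw [hc, hd]; norm_num
    have h3 : -(t0 / S ^ 2) * (c * d * (1 / 2 * N)) = -(t0 * (c * d)) * (1 / 2 * N) / S ^ 2 := by
      ring
    rw [h3, h1, h2]
    field_simp
    ring
  rw [hval] at hmean
  refine ⟨1 - 3 * N / (16 * S ^ 2), by
    have : 0 < 3 * N / (16 * S ^ 2) := by positivity
    linarith, fun η hη => ?_⟩
  obtain ⟨⟨B0, hB0⟩, hlim⟩ := hmean
  filter_upwards [hlim.eventually_lt_const (lt_add_of_pos_right _ hη),
    lam_tendsto.eventually_gt_atTop 0, self_mem_nhdsWithin] with ε h1 h2 h3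
  refine le_trans (div_le_div_of_nonneg_right ?_ h2.le) h1.le
  exact EP_mono (B := |SA| + |SB|) (fun v => by rw [abs_abs]; exact hWb v) hB0 hmaj h3

end

end Pool.Agent.W353.L1
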